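import Mathlib

open Cardinal Set

namespace Pool.Agent.X219.OP

/-- The set of ordinals below `κ`, with its order. -/
abbrev K (κ : Cardinal.{0}) : Type := κ.ord.ToType

/-- The points of the generalized Baire space of functions from `κ` to `κ`. -/
def Pt (κ : Cardinal.{0}) : Type := K κ → K κ

variable {κ : Cardinal.{0}}

/-- `x` and `y` have the same restriction to `α`. -/
def Agree (α : K κ) (x y : Pt κ) : Prop := ∀ β, β < α → x β = y β

/-- The bounded topology, generated by the sets `N_σ`, where `σ` is the restriction of some `x` to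
some `α < κ`. -/
instance topPt : TopologicalSpace (Pt κ) :=
  TopologicalSpace.generateFrom {U | ∃ (x : Pt κ) (α : K κ), U = {y | Agree α x y}}

/-- The list of the first `n` entries of `a`: the moves of Player I in rounds `1, ..., n`, where
`a i` is the ordinal played in round `i + 1`. -/
def pre (a : ℕ → K κ) (n : ℕ) : List (K κ) := (List.range n).map a

/-- Player II has a winning strategy in `G_κ(E, x0, ω + 1)`. The strategy is given by `τ` (the move
of Player II in round `n`, as a function of the ordinals played by Player I in rounds `1, ..., n`;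
its value on the empty list is the starting point `x0`) and `τω` (the move of Player II in round
`ω`). Player I plays a strictly increasing sequence, `a i` in round `i + 1`, and then the supremum
of this sequence in round `ω`. -/
def Wins (E : Set (Pt κ)) (x0 : Pt κ) : Prop :=
  ∃ (τ : List (K κ) → Pt κ) (τω : (ℕ → K κ) → Pt κ), τ [] = x0 ∧
    ∀ a : ℕ → K κ, StrictMono a →
      (∀ n, 1 ≤ n → τ (pre a n) ∈ E) ∧
      (∀ m n, m < n → τ (pre a m) ≠ τ (pre a n) ∧ Agree (a m) (τ (pre a m)) (τ (pre a n))) ∧
      τω a ∈ E ∧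
      (∀ m, τ (pre a m) ≠ τω a ∧ Agree (a m) (τ (pre a m)) (τω a))

/-- `E` is `(ω+1)`-perfect. -/
def OmegaOnePerfect (E : Set (Pt κ)) : Prop := IsClosed E ∧ ∀ x0 ∈ E, Wins E x0

/-- The hypothesis of both questions: `E` is closed and is the image of an `(ω+1)`-perfect set
under a continuous map. -/
def Hyp (E : Set (Pt κ)) : Prop :=
  IsClosed E ∧ ∃ D : Set (Pt κ), OmegaOnePerfect D ∧
    ∃ f : D → E, Continuous f ∧ Function.Surjective f

/-- The statement asked for in Q1, for the cardinal `κ`. -/
def Q1 (κ : Cardinal.{0}) : Prop :=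
  ∀ E : Set (Pt κ), Hyp E → ∃ X ⊆ E, #X ≤ κ ^< κ ∧ ∀ x0 ∈ E \ X, Wins E x0

/-- The statement asked for in Q2, for the cardinal `κ`. -/
def Q2 (κ : Cardinal.{0}) : Prop :=
  ∀ E : Set (Pt κ), Hyp E → ∃ X ⊆ E, #X ≤ κ ^< κ ∧ OmegaOnePerfect (E \ X)

/-! ### Basic facts -/

theorem mem_pre {a : ℕ → K κ} {n : ℕ} {x : K κ} : x ∈ pre a n ↔ ∃ i < n, a i = x := by
  simp [pre]

theorem pre_zero (a : ℕ → K κ) : pre a 0 = [] := rfl

theorem pre_succ (a : ℕ → K κ) (n : ℕ) : pre a (n + 1) = pre a n ++ [a n] := by
  simp [pre, List.range_succ]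

theorem pre_congr {a b : ℕ → K κ} {n : ℕ} (h : ∀ i < n, a i = b i) : pre a n = pre b n := by
  unfold pre
  apply List.map_congr_left
  intro i hi
  exact h i (List.mem_range.1 hi)

theorem isOpen_N (x : Pt κ) (α : K κ) : IsOpen {y | Agree α x y} :=
  TopologicalSpace.isOpen_generateFrom_of_mem ⟨x, α, rfl⟩

theorem Agree.refl (α : K κ) (x : Pt κ) : Agree α x x := fun _ _ => rfl

theorem Agree.symm {α : K κ} {x y : Pt κ} (h : Agree α x y) : Agree α y x :=
  fun β hβ => (h β hβ).symm

theorem Agree.trans {α : K κ} {x y z : Pt κ} (h : Agree α x y) (h' : Agree α y z) : Agree α x z :=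
  fun β hβ => (h β hβ).trans (h' β hβ)

/-- A map which does not increase the agreement is continuous. -/
theorem continuous_of_agree {g : Pt κ → Pt κ}
    (hg : ∀ α x y, Agree α x y → Agree α (g x) (g y)) : Continuous g := by
  refine continuous_generateFrom_iff.2 ?_
  rintro U ⟨x, α, rfl⟩
  have : g ⁻¹' {y | Agree α x y} = ⋃ z ∈ {z | Agree α x (g z)}, {y | Agree α z y} := by
    ext y
    simp only [mem_preimage, mem_ofPred_eq, mem_iUnion, exists_prop]
    constructor
    · intro h
      exact ⟨y, h, Agree.refl _ _⟩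
    · rintro ⟨z, hz, hzy⟩
      exact hz.trans (hg α z y hzy)
  rw [this]
  exact isOpen_biUnion fun z _ => isOpen_N z α

end Pool.Agent.X219.OP
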