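import Pool.Agent.X219.OP.Thin

open Cardinal Set

namespace Pool.Agent.X219.OP

variable {κ : Cardinal.{0}}

theorem Wins.mono {E E' : Set (Pt κ)} (h : E ⊆ E') {x0 : Pt κ} (hw : Wins E x0) : Wins E' x0 := by
  obtain ⟨τ, τω, h0, hτ⟩ := hw
  refine ⟨τ, τω, h0, fun a ha => ?_⟩
  obtain ⟨h1, h2, h3, h4⟩ := hτ a ha
  exact ⟨fun n hn => h (h1 n hn), h2, h h3, h4⟩

theorem refute_of_big (hκ : κ.IsRegular) {E : Set (Pt κ)} (hE : IsClosed E) (hbig : κ ^< κ < #E)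
    (hno : ∀ x0, ¬ Wins E x0) : ¬ Q1 κ ∧ ¬ Q2 κ := by
  have hne : ∀ X : Set (Pt κ), #X ≤ κ ^< κ → (E \ X).Nonempty := by
    intro X hX
    by_contra hcon
    rw [not_nonempty_iff_eq_empty, sdiff_eq_empty] at hcon
    exact absurd (Cardinal.mk_le_mk_of_subset hcon) (not_le.2 (lt_of_le_of_lt hX hbig))
  constructor
  · intro hQ
    obtain ⟨X, -, hX, hw⟩ := hQ E (hyp_of_closed hκ E hE)
    obtain ⟨x, hx⟩ := hne X hX
    exact hno x (hw x hx)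
  · intro hQ
    obtain ⟨X, -, hX, -, hw⟩ := hQ E (hyp_of_closed hκ E hE)
    obtain ⟨x, hx⟩ := hne X hX
    exact hno x ((hw x hx).mono sdiff_subset)

theorem closed_of_family (hκ : κ.IsRegular) (F : Set (Set (K κ)))
    (hthin : ∀ α : K κ, #((fun A => A ∩ Iio α) '' F : Set (Set (K κ))) < 2 ^ ℵ₀) :
    ∃ E : Set (Pt κ), IsClosed E ∧ #F ≤ #E ∧ ∀ α, #(level E α) < 2 ^ ℵ₀ := by
  classical
  have hinf := infinite_K hκ
  obtain ⟨u, v, huv⟩ := exists_pair_ne (K κ)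
  let ch : Set (K κ) → Pt κ := fun A β => if β ∈ A then u else v
  have hch : Function.Injective ch := by
    intro A B hAB
    ext β
    have h := congrFun hAB β
    by_cases hA : β ∈ A <;> by_cases hB : β ∈ B <;> simp [ch, hA, hB] at h ⊢
    · exact huv h
    · exact huv h.symm
  refine ⟨closure (ch '' F), isClosed_closure, ?_, ?_⟩
  · calc #F = #(ch '' F) := (Cardinal.mk_image_eq hch).symm
      _ ≤ #(closure (ch '' F)) := Cardinal.mk_le_mk_of_subset subset_closure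
  · intro α
    refine lt_of_le_of_lt ?_ (hthin α)
    have hsub : level (closure (ch '' F)) α ⊆
        (fun (B : Set (K κ)) (β : Iio α) => if β.1 ∈ B then u else v) ''
          ((fun A => A ∩ Iio α) '' F) := by
      rintro s ⟨x, hx, rfl⟩
      obtain ⟨y, hy1, A, hA, rfl⟩ := mem_closure_iff.1 hx _ (isOpen_N x α) (Agree.refl α x)
      refine ⟨A ∩ Iio α, ⟨A, hA, rfl⟩, ?_⟩
      funext β
      have h1 : x β.1 = ch A β.1 := hy1 β.1 β.2
      have h2 : (β.1 ∈ A ∩ Iio α) ↔ β.1 ∈ A := ⟨fun h => h.1, fun h => ⟨h, β.2⟩⟩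
      have h3 : ch A β.1 = if β.1 ∈ A then u else v := rfl
      simp only [h1, h3]
      by_cases hb : β.1 ∈ A
      · rw [if_pos (h2.2 hb), if_pos hb]
      · rw [if_neg (fun h => hb (h2.1 h)), if_neg hb]
    exact (Cardinal.mk_le_mk_of_subset hsub).trans Cardinal.mk_image_le

/-- The conclusion for a family of sets with few traces. -/
theorem big_of_family (hκ : κ.IsRegular) (hunc : ℵ₀ < κ)
    (hF : ∃ F : Set (Set (K κ)), κ ^< κ < #F ∧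
      ∀ α : K κ, #((fun A => A ∩ Iio α) '' F : Set (Set (K κ))) < 2 ^ ℵ₀) :
    (∃ E : Set (Pt κ), Hyp E ∧ κ ^< κ < #E ∧ ∀ x0, ¬ Wins E x0) ∧ ¬ Q1 κ ∧ ¬ Q2 κ := by
  obtain ⟨F, hbig, hthin⟩ := hF
  obtain ⟨E, hE, hcard, hlev⟩ := closed_of_family hκ F hthin
  have hno := fun x0 => not_wins_of_thin hκ hunc E hlev x0
  have hb := lt_of_lt_of_le hbig hcard
  exact ⟨⟨E, hyp_of_closed hκ E hE, hb, hno⟩, refute_of_big hκ hE hb hno⟩

theorem powerlt_aleph_one (hCH : (2 : Cardinal.{0}) ^ ℵ₀ = ℵ₁) : (ℵ₁ : Cardinal.{0}) ^< ℵ₁ ≤ ℵ₁ := by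
  rw [Cardinal.powerlt_le]
  intro x hx
  have hx' : x ≤ ℵ₀ := by
    rw [← Order.lt_succ_iff, Cardinal.succ_aleph0]
    exact hx
  calc (ℵ₁ : Cardinal.{0}) ^ x ≤ ℵ₁ ^ (ℵ₀ : Cardinal.{0}) :=
        Cardinal.power_le_power_left (Cardinal.aleph_pos 1).ne' hx'
    _ = (2 ^ ℵ₀) ^ (ℵ₀ : Cardinal.{0}) := by rw [hCH]
    _ = 2 ^ (ℵ₀ * ℵ₀ : Cardinal.{0}) := (Cardinal.power_mul).symm
    _ = ℵ₁ := by rw [Cardinal.aleph0_mul_aleph0, hCH]

end Pool.Agent.X219.OP
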