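import Pool.Agent.X219.OP.Void

open Cardinal Set

namespace Pool.Agent.X219.OP

variable {κ : Cardinal.{0}}

/-- The level `α` of the tree of `E`: all restrictions to `α` of points of `E`. -/
def level (E : Set (Pt κ)) (α : K κ) : Set (Iio α → K κ) :=
  (fun (x : Pt κ) (β : Iio α) => x β.1) '' E

theorem exists_bound (hκ : κ.IsRegular) (S : Set (K κ)) (hS : #S < κ) : ∃ b, ∀ s ∈ S, s < b := by
  by_contra hcon
  have hcof : IsCofinal S := by
    intro x
    by_contra hx
    refine hcon ⟨x, fun s hs => ?_⟩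
    by_contra h
    exact hx ⟨s, hs, not_lt.1 h⟩
  have h1 := Order.cof_le hcof
  rw [Ordinal.cof_toType, hκ.cof_ord] at h1
  exact absurd hS (not_lt.2 h1)

theorem mk_Iic_lt (hκ : κ.IsRegular) (γ : K κ) : #(Iic γ) < κ := by
  have h1 : #(Iio γ) < κ := by simpa using Cardinal.mk_Iio_lt (α := K κ) γ (by simp)
  have h2 : (Iic γ : Set (K κ)) = insert γ (Iio γ) := by
    ext x; simp [le_iff_eq_or_lt]
  rw [h2]
  refine lt_of_le_of_lt Cardinal.mk_insert_le ?_
  exact Cardinal.add_lt_of_lt hκ.aleph0_le h1 (lt_of_lt_of_le Cardinal.one_lt_aleph0 hκ.aleph0_le)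

/-- A bounding function. -/
theorem exists_G (hκ : κ.IsRegular) (hunc : ℵ₀ < κ) (D : List (K κ) → K κ → K κ) :
    ∃ G : K κ → K κ, (∀ γ, γ < G γ) ∧
      ∀ γ l α, (∀ x ∈ l, x ≤ γ) → α ≤ γ → D l α < G γ := by
  have key : ∀ γ : K κ, ∃ b, γ < b ∧ ∀ l α, (∀ x ∈ l, x ≤ γ) → α ≤ γ → D l α < b := by
    intro γ
    let F : List (Iic γ) × Iic γ → K κ := fun q => D (q.1.map Subtype.val) q.2.1
    have hS : #(insert γ (range F) : Set (K κ)) < κ := by
      refine lt_of_le_of_lt Cardinal.mk_insert_le ?_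
      refine Cardinal.add_lt_of_lt hκ.aleph0_le ?_
        (lt_of_lt_of_le Cardinal.one_lt_aleph0 hκ.aleph0_le)
      refine lt_of_le_of_lt Cardinal.mk_range_le ?_
      rw [Cardinal.mk_prod, Cardinal.lift_id, Cardinal.lift_id]
      refine Cardinal.mul_lt_of_lt hκ.aleph0_le ?_ (mk_Iic_lt hκ γ)
      exact lt_of_le_of_lt (Cardinal.mk_list_le_max _) (max_lt hunc (mk_Iic_lt hκ γ))
    obtain ⟨b, hb⟩ := exists_bound hκ _ hS
    refine ⟨b, hb γ (mem_insert _ _), ?_⟩
    intro l α hl hα
    apply hb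
    apply mem_insert_of_mem
    refine ⟨(l.attach.map (fun x => ⟨x.1, hl x.1 x.2⟩), ⟨α, hα⟩), ?_⟩
    change D _ _ = _
    congr 1
    simp
  choose G hG using key
  exact ⟨G, fun γ => (hG γ).1, fun γ l α hl hα => (hG γ).2 l α hl hα⟩

/-- The main lemma: if all levels of `E` have fewer than continuum many nodes, then Player II wins
the game of length `ω + 1` from no point. -/
theorem not_wins_of_thin (hκ : κ.IsRegular) (hunc : ℵ₀ < κ) (E : Set (Pt κ))
    (hthin : ∀ α, #(level E α) < 2 ^ ℵ₀) (x0 : Pt κ) : ¬ Wins E x0 := by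
  classical
  rintro ⟨τ, τω, -, hτ⟩
  -- the first difference of `τ l` and `τ (l ++ [α])`
  have hD : ∀ (l : List (K κ)) (α : K κ), ∃ d : K κ, τ l ≠ τ (l ++ [α]) → τ l d ≠ τ (l ++ [α]) d := by
    intro l α
    by_cases h : τ l = τ (l ++ [α])
    · exact ⟨α, fun h' => absurd h h'⟩
    · obtain ⟨d, hd⟩ := Function.ne_iff.1 h
      exact ⟨d, fun _ => hd⟩
  choose D hD using hD
  obtain ⟨G, hG1, hG2⟩ := exists_G hκ hunc D
  have hne : Nonempty (K κ) := by
    have := infinite_K hκ
    infer_instance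
  obtain ⟨k0⟩ := hne
  let M : ℕ → K κ := fun n => G^[n] k0
  have hM1 : ∀ n, M (n + 1) = G (M n) := fun n => Function.iterate_succ_apply' G n k0
  have hMono : StrictMono M := strictMono_nat_of_lt_succ fun n => by rw [hM1]; exact hG1 _
  -- the plays
  let A : (ℕ → Bool) → ℕ → K κ := fun y n => M (2 * n + if y n then 1 else 0)
  have hA : ∀ y, StrictMono (A y) := by
    intro y
    apply strictMono_nat_of_lt_succ
    intro n
    apply hMono
    split_ifs <;> omega
  have hAle : ∀ y n, ∀ x ∈ pre (A y) n, x ≤ M (2 * n) := by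
    intro y n x hx
    obtain ⟨i, hi, rfl⟩ := mem_pre.1 hx
    apply hMono.monotone
    split_ifs <;> omega
  -- the bound
  obtain ⟨δ, hδ⟩ := exists_bound hκ (range M) (lt_of_le_of_lt
    (Cardinal.mk_le_aleph0_iff.2 (countable_range M).to_subtype) hunc)
  -- comparison of two plays
  have hcmp : ∀ (y z : ℕ → Bool) (n : ℕ), (∀ i < n, y i = z i) → y n = false → z n = true →
      ∃ d < δ, τω (A y) d ≠ τω (A z) d := by
    intro y z n hyz hy hz
    obtain ⟨-, hy2, -, hy4⟩ := hτ (A y) (hA y)
    obtain ⟨-, hz2, -, hz4⟩ := hτ (A z) (hA z)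
    have hpre : pre (A y) n = pre (A z) n := pre_congr fun i hi => by
      change M _ = M _
      rw [hyz i hi]
    have hAy : A y n = M (2 * n) := by
      change M _ = M _
      rw [hy]; simp
    have hAz : A z n = M (2 * n + 1) := by
      change M _ = M _
      rw [hz]; simp
    have hps : pre (A y) (n + 1) = pre (A y) n ++ [M (2 * n)] := by
      rw [pre_succ, hAy]
    have hd1 := hD (pre (A y) n) (M (2 * n)) (by rw [← hps]; exact (hy2 n (n + 1) (Nat.lt_succ_self n)).1)
    have hlt : D (pre (A y) n) (M (2 * n)) < M (2 * n + 1) := by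
      rw [hM1]
      exact hG2 _ _ _ (hAle y n) le_rfl
    refine ⟨D (pre (A y) n) (M (2 * n)), hlt.trans (hδ _ ⟨_, rfl⟩), ?_⟩
    have e1 : τ (pre (A y) (n + 1)) (D (pre (A y) n) (M (2 * n))) =
        τω (A y) (D (pre (A y) n) (M (2 * n))) := by
      apply (hy4 (n + 1)).2
      refine hlt.trans_le ?_
      apply hMono.monotone
      omega
    have e2 : τ (pre (A z) n) (D (pre (A y) n) (M (2 * n))) =
        τω (A z) (D (pre (A y) n) (M (2 * n))) := by
      apply (hz4 n).2
      rw [hAz]
      exact hlt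
    rw [← e1, ← e2, ← hpre, hps]
    exact hd1.symm
  have hinj : Function.Injective
      (fun y : ℕ → Bool => (⟨fun β : Iio δ => τω (A y) β.1, ⟨τω (A y), (hτ (A y) (hA y)).2.2.1, rfl⟩⟩
        : level E δ)) := by
    intro y z hyz
    by_contra hne
    have hfun : ∀ d < δ, τω (A y) d = τω (A z) d := by
      intro d hd
      have := congrFun (congrArg Subtype.val hyz) (⟨d, hd⟩ : Iio δ)
      exact this
    have hex : ∃ n, y n ≠ z n := Function.ne_iff.1 hne
    have hn := Nat.find_spec hex
    have hmin : ∀ i < Nat.find hex, y i = z i := fun i hi => by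
      by_contra h
      exact Nat.find_min hex hi h
    cases hy : y (Nat.find hex) with
    | false =>
      have hz : z (Nat.find hex) = true := by
        cases hz : z (Nat.find hex) with
        | false => exact absurd (hy.trans hz.symm) hn
        | true => rfl
      obtain ⟨d, hd, hd2⟩ := hcmp y z _ hmin hy hz
      exact hd2 (hfun d hd)
    | true =>
      have hz : z (Nat.find hex) = false := by
        cases hz : z (Nat.find hex) with
        | true => exact absurd (hy.trans hz.symm) hn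
        | false => rfl
      obtain ⟨d, hd, hd2⟩ := hcmp z y _ (fun i hi => (hmin i hi).symm) hz hy
      exact hd2 (hfun d hd).symm
  have hle := Cardinal.mk_le_of_injective hinj
  have hcard : #(ℕ → Bool) = 2 ^ ℵ₀ := by simp
  rw [hcard] at hle
  exact absurd (hthin δ) (not_lt.2 hle)

end Pool.Agent.X219.OP
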