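import Pool.Agent.X219.OP.Defs

open Cardinal Set

namespace Pool.Agent.X219.OP

variable {κ : Cardinal.{0}}

theorem infinite_K (hκ : κ.IsRegular) : Infinite (K κ) := by
  rw [Cardinal.infinite_iff, mk_ord_toType]
  exact hκ.aleph0_le

section void

variable (p : K κ × K κ ≃ K κ)

/-- first coordinate -/
def fs (x : Pt κ) : Pt κ := fun β => (p.symm (x β)).1

/-- second coordinate -/
def sn (x : Pt κ) : Pt κ := fun β => (p.symm (x β)).2

/-- the point with given coordinates -/
def jn (e s : Pt κ) : Pt κ := fun β => p (e β, s β)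

theorem fs_jn (e s : Pt κ) : fs p (jn p e s) = e := by
  funext β; simp [fs, jn]

theorem jn_fs_sn (x : Pt κ) : jn p (fs p x) (sn p x) = x := by
  funext β; simp [fs, jn, sn]

theorem fs_agree (α : K κ) (x y : Pt κ) (h : Agree α x y) : Agree α (fs p x) (fs p y) := by
  intro β hβ
  simp [fs, h β hβ]

open Classical in
/-- The point `x` with the second coordinate changed at the positions in `S`. -/
noncomputable def chg (g : K κ → K κ) (x : Pt κ) (S : Set (K κ)) : Pt κ :=
  jn p (fs p x) (fun β => if β ∈ S then g (sn p x β) else sn p x β)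

theorem fs_chg (g : K κ → K κ) (x : Pt κ) (S : Set (K κ)) : fs p (chg p g x S) = fs p x :=
  fs_jn _ _ _

theorem chg_empty (g : K κ → K κ) (x : Pt κ) : chg p g x ∅ = x := by
  unfold chg
  simp only [mem_empty_iff_false, if_false]
  exact jn_fs_sn p x

theorem chg_agree (g : K κ → K κ) (x : Pt κ) (S T : Set (K κ)) (α : K κ)
    (h : ∀ β, β < α → (β ∈ S ↔ β ∈ T)) : Agree α (chg p g x S) (chg p g x T) := by
  intro β hβ
  unfold chg jn
  have := h β hβ
  by_cases hS : β ∈ S
  · simp [hS, this.1 hS]
  · have hT : β ∉ T := fun h' => hS (this.2 h')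
    simp [hS, hT]

theorem chg_ne (g : K κ → K κ) (hg : ∀ t, g t ≠ t) (x : Pt κ) (S T : Set (K κ)) (β : K κ)
    (hS : β ∉ S) (hT : β ∈ T) : chg p g x S ≠ chg p g x T := by
  intro h
  have := congrFun h β
  unfold chg jn at this
  simp only [hS, hT, if_true, if_false] at this
  have h2 := (Prod.mk.inj (p.injective this)).2
  exact hg _ h2.symm

/-- The set of points whose first coordinate is in `E` is `(ω+1)`-perfect. -/
theorem perfect_fs (g : K κ → K κ) (hg : ∀ t, g t ≠ t) (E : Set (Pt κ)) (hE : IsClosed E) :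
    OmegaOnePerfect {x | fs p x ∈ E} := by
  refine ⟨hE.preimage (continuous_of_agree (fs_agree p)), ?_⟩
  intro x0 hx0
  refine ⟨fun l => chg p g x0 {β | β ∈ l}, fun a => chg p g x0 (range a), ?_, ?_⟩
  · have : ({β | β ∈ ([] : List (K κ))} : Set (K κ)) = ∅ := by ext; simp
    change chg p g x0 {β | β ∈ ([] : List (K κ))} = x0
    rw [this]
    exact chg_empty p g x0
  · intro a ha
    refine ⟨?_, ?_, ?_, ?_⟩
    · intro n _
      change fs p _ ∈ E
      rw [fs_chg]
      exact hx0
    · intro m n hmn
      constructor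
      · refine chg_ne p g hg x0 _ _ (a m) ?_ ?_
        · simp only [mem_ofPred_eq, mem_pre, not_exists, not_and]
          intro i hi h
          exact absurd (ha.injective h) hi.ne
        · simp only [mem_ofPred_eq, mem_pre]
          exact ⟨m, hmn, rfl⟩
      · refine chg_agree p g x0 _ _ _ ?_
        intro β hβ
        simp only [mem_ofPred_eq, mem_pre]
        constructor
        · rintro ⟨i, hi, rfl⟩
          exact ⟨i, hi.trans hmn, rfl⟩
        · rintro ⟨i, hi, rfl⟩
          exact ⟨i, ha.lt_iff_lt.1 hβ, rfl⟩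
    · change fs p _ ∈ E
      rw [fs_chg]
      exact hx0
    · intro m
      constructor
      · refine chg_ne p g hg x0 _ _ (a m) ?_ ?_
        · simp only [mem_ofPred_eq, mem_pre, not_exists, not_and]
          intro i hi h
          exact absurd (ha.injective h) hi.ne
        · exact ⟨m, rfl⟩
      · refine chg_agree p g x0 _ _ _ ?_
        intro β hβ
        simp only [mem_ofPred_eq, mem_pre, mem_range]
        constructor
        · rintro ⟨i, hi, rfl⟩
          exact ⟨i, rfl⟩
        · rintro ⟨i, rfl⟩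
          exact ⟨i, ha.lt_iff_lt.1 hβ, rfl⟩

end void

/-- Every closed set is a continuous image of an `(ω+1)`-perfect set. -/
theorem hyp_of_closed (hκ : κ.IsRegular) (E : Set (Pt κ)) (hE : IsClosed E) : Hyp E := by
  have := infinite_K hκ
  have hcard : #(K κ × K κ) = #(K κ) := by
    rw [Cardinal.mk_prod, Cardinal.lift_id, mk_ord_toType]
    exact Cardinal.mul_eq_self hκ.aleph0_le
  obtain ⟨p⟩ := Cardinal.eq.1 hcard
  have hex : ∀ t : K κ, ∃ s : K κ, s ≠ t := fun t => exists_ne t
  choose g hg using hex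
  refine ⟨hE, {x | fs p x ∈ E}, perfect_fs p g hg E hE, fun x => ⟨fs p x.1, x.2⟩, ?_, ?_⟩
  · exact Continuous.subtype_mk
      ((continuous_of_agree (fs_agree p)).comp continuous_subtype_val) _
  · rintro ⟨e, he⟩
    refine ⟨⟨jn p e e, ?_⟩, ?_⟩
    · change fs p _ ∈ E
      rw [fs_jn]
      exact he
    · apply Subtype.ext
      exact fs_jn p e e

end Pool.Agent.X219.OP
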